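import Pool.Agent.W574.CN.Cone

set_option autoImplicit false

/-! # The strong monodromy conjecture for ideals generated by forms in three variables

`I = (f_j)` is an ideal of `ℂ[x₀, x₁, x₂]` generated by forms `f_j` of the same degree `d`. The
topological zeta function of `I` is `Z_J / (d s + 3)`, where `J` is the ideal sheaf which `I`
defines on the projective plane, and `Z_J` is computed by blowing up points; see `ConeZeta` (in
`Pool.Agent.W574.CN.Defs`), `PlaneZeta` and `LocalZeta` (in `Pool.Agent.W574.SM.ZetaDefs`).

The proof:

* `functionalEq_deh`: a functional equation of an ideal generated by forms of the same degree gives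
  one of the dehomogenized ideal, with the same `b`;
* `plane_main`: hence the poles which come from the ideals `(f_j |_{x_i = 1})` of `ℂ[u, v]` are
  roots of `b`;
* `generic_root`: `b(-3/d) = 0` if three of the forms are algebraically independent. -/

namespace Pool.Agent.Results.MP_ee8c61_ag.ConeIdeals

open MvPolynomial Pool.Agent.W574.CN Pool.Agent.W574.SM

/-- Let `f_j` be forms of the same degree `d > 0` in three variables, let `b` be a polynomial which
satisfies a functional equation of the `f_j` (in particular the Bernstein-Sato polynomial of the
ideal `I = (f_j)`), and let `Z` be the topological zeta function of `I`. Then every pole `s₀` of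
`Z` is a root of `b`, provided that `s₀ ≠ -3/d` or that three of the `f_j` have a nonzero Jacobian
determinant (are algebraically independent). -/
theorem result {ι : Type} [Fintype ι] (f : ι → MvPolynomial (Fin 3) ℂ) (d : ℕ) (hd : 0 < d)
    (hf : ∀ j, (f j).IsHomogeneous d) (b : Polynomial ℂ) (hb : IsFunctionalEq f b)
    (Z : RatFunc ℂ) (hZ : ConeZeta f d Z) (s₀ : ℂ) (hs₀ : Z.denom.eval s₀ = 0)
    (h : s₀ ≠ -3 / d ∨ ∃ e : Fin 3 → ι, (Matrix.of fun s t => pderiv s (f (e t))).det ≠ 0) :
    b.eval s₀ = 0 := by
  classical
  exact cone_main f d hd hf b hb Z hZ s₀ hs₀ h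

end Pool.Agent.Results.MP_ee8c61_ag.ConeIdeals
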