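import Pool.Agent.W574.SM.DetSort

set_option autoImplicit false

/-! # The strong monodromy conjecture for generic determinantal ideals

Let `I` be the ideal of the `p × p` minors of the generic `m × n` matrix, `p < min (m, n)`. The
topological zeta function of `I` was computed by Docampo (Arcs on determinantal varieties):
`Z_I(s) = ∏_{d < p} (1 + s (p - d) / ((m - d) (n - d)))⁻¹`, so that its poles are the numbers
`-(m - d) (n - d) / (p - d)`, `0 ≤ d < p`. The theorem: all these numbers are roots of the
Bernstein-Sato polynomial of `I`. (For `p = min (m, n)`, the maximal minors, this is known, together
with the formula for `b_I`.)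

The divisor over the matrices of rank at most `d` is a Rees divisor of `I` as soon as
`p < min (m, n)`: the minors of size `p - d` determine a matrix with at least `p - d + 1` rows and
columns up to a constant. So the theorem follows from the theorem on Rees divisors. -/

namespace Pool.Agent.Results.MP_ee8c61_ag.DeterminantalIdeals

open Pool.Agent.W574.SM

/-- **Every pole of the topological zeta function of a generic determinantal ideal is a root of its
Bernstein-Sato polynomial.** Let `0 ≤ d < p < min (m, n)`. Every polynomial `b` which satisfies a
functional equation of the `p`-minors of the generic `m × n` matrix, in particular the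
Bernstein-Sato polynomial of the ideal of the `p`-minors, has the root
`-(m - d) (n - d) / (p - d)`. -/
theorem result (m n p d : ℕ) (hd : d < p) (hpm : p < m) (hpn : p < n) (b : Polynomial ℂ)
    (hb : IsFunctionalEq (minors m n p) b) :
    b.eval (-(((m : ℂ) - d) * (n - d)) / (p - d)) = 0 :=
  minors_roots m n p d hd hpm hpn b hb

end Pool.Agent.Results.MP_ee8c61_ag.DeterminantalIdeals
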