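import Mathlib
import Pool.Agent.W425.GN.Ideals

/-!
# The strong monodromy conjecture for ideals with generic coefficients at the vertices

Let `F ⊆ ℂ` be a field and `I = (f_1, …, f_k)` an ideal of `ℂ[x_1, …, x_N]` generated by
polynomials `f_i = ∑_{π j = i} a_j x ^ (w j) + h_i`, where `h_i ∈ F[x_1, …, x_N]` is an ARBITRARY
polynomial whose exponents lie in the convex hull of the `w j` with `π j = i`, and only the
coefficients `a_j` (for instance at the vertices of the Newton polytopes of the `f_i`) are generic:
`G(a) ≠ 0` for a certain nonzero polynomial `G` with coefficients in `F`. Then `g = ∑ y_i f_i` is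
nondegenerate and `b_I(s) Z_I(s)` is a polynomial in `s`, where `Z_I` is the topological zeta function
of the ideal. It is enough that the `f_i` have this form after a diagonal change of variables
`x_l → t_l x_l` and multiplication of the generators by constants `c_i`; so the theorem contains the
monomial ideals `(x ^ (w 1), …, x ^ (w k))` (with `a_i = c_i`).

Method. For `a_j` algebraically independent over `F` this is `finalIdealC`
(`Pool/Agent/W425/SU/Final.lean`), proved from the functional equation of `b_g`, where
`b_g(s) = (s + 1) b_I(s)`. Now `(s - α) ^ (m + 1)` divides `b_g` if and only if there is no identity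
`(s - α) ^ m g ^ s = P(s) g ^ (s + 1) + (s - α) ^ (m + 1) Q(s) g ^ s`. Gröbner bases in the Weyl algebra
over `F(a_1, …, a_r)`, spread out over `F[a_1, …, a_r, 1 / G]`, show that such an identity for one
member of the family with `G(a) ≠ 0` gives one for the generic member.
-/

set_option autoImplicit false

namespace Pool.Agent.Results.MP_ee8c61_ag.GenericCoefficientIdeals

open Polynomial Pool.Agent.W425.SM Pool.Agent.W425.SI Pool.Agent.W425.SU Pool.Agent.W425.MM

/-- **The strong monodromy conjecture, with multiplicities (Q2, hence Q1), for ideals generated by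
polynomials with generic coefficients at the vertices and arbitrary other coefficients.**

`gens π w a i = ∑_{π j = i} a_j x ^ (w j)`, and `HullAt π w i u` says that `u` lies in the convex
hull of the `w j` with `π j = i`. `IsFunctionalEq f b` is the functional equation in the definition
of `b_I`, `I = (f_1, …, f_k)`; `b_I` is the monic one of least degree of these polynomials.

`NonD v c`, here for the exponents and coefficients of
`g = ∑_j a_j y_(π j) x ^ (w j) + ∑ y_i h_i` (in the `k + N` variables `y, x`; `cay π w j = (e_(π j), w j)`
and `cayH h = ∑ y_i h_i`, which has the exponents `we (cayH h)` and the coefficients `wc (cayH h)`) says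
that `g` is nondegenerate: for every `u ∈ ℕ ^ (k + N)` the face polynomial `g_u` and all the
`z ∂ g_u / ∂ z`, `z` a variable, have no common zero with all coordinates nonzero.

`topZetaI π w R` is `Z_I(s) = (s + 1) Z_g(s)`, where `g = ∑ y_i (f_i)` (after the change of
variables) and `Z_g(s) = topZetaG (cay π w) R` is its global topological zeta function
`∑_{σ ∈ R} ((chiO σ - chiG v R σ) + chiG v R σ / (s + 1)) ∏_{ρ ∈ σ} 1 / (ord(ρ) s + |ρ|)`
computed on the toric embedded resolution given by any smooth fan `R` with support the positive
orthant of `ℝ ^ (k + N)` on which the ideal `(x ^ (v j))_j`, `v = cay π w`, becomes principal.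
Here `chiO σ` is the Euler characteristic of the torus orbit of `σ` and
`chiG v R σ = (-1) ^ (k + N - dim σ - 1) Vol` (`0` for `dim σ = k + N`) that of the strict transform
of `{g = 0}` in the orbit (Kouchnirenko), where `Vol` is the normalised volume of the face of `σ`
of the convex hull of the `v j`: the Lebesgue volume in lattice coordinates, divided by that of the
standard simplex. -/
theorem result {r k N : ℕ} (hr : 1 ≤ r) (F : Subfield ℂ) (π : Fin r → Fin k)
    (w : Fin r → Fin N → ℕ) (hw : Function.Injective fun j => (π j, w j))
    (h : Fin k → MvPolynomial (Fin N) F)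
    (hh : ∀ i, ∀ u ∈ (h i).support, HullAt π w i u) :
    ∃ G : MvPolynomial (Fin r) F, G ≠ 0 ∧ ∀ a : Fin r → ℂ, MvPolynomial.aeval a G ≠ 0 →
      NonD (Fin.append (cay π w) (we (cayH h)))
        (Fin.append a (fun l => algebraMap F ℂ (wc (cayH h) l))) ∧
      ∀ (f : Fin k → MvPolynomial (Fin N) ℂ) (c : Fin k → ℂ) (t : Fin N → ℂ), (∀ i, c i ≠ 0) →
        (∀ l, t l ≠ 0) →
        (∀ i, MvPolynomial.C (c i) *
          MvPolynomial.aeval (fun l => MvPolynomial.C (t l) * MvPolynomial.X l) (f i) =
          gens π w a i + MvPolynomial.map (algebraMap F ℂ) (h i)) →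
        ∀ b : ℂ[X], Pool.Agent.W574.SM.IsFunctionalEq f b →
        ∀ R : SmoothFan (k + N), Principal (cay π w) R →
        ∃ P : ℂ[X], algebraMap ℂ[X] (RatFunc ℂ) b * topZetaI π w R =
          algebraMap ℂ[X] (RatFunc ℂ) P :=
  Pool.Agent.W425.GN.gen_ideal hr π w hw h hh

end Pool.Agent.Results.MP_ee8c61_ag.GenericCoefficientIdeals
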