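import Pool.Agent.W574.SM.PlaneMain

set_option autoImplicit false

/-! # The strong monodromy conjecture for all ideals of `ℂ[x, y]`

`Z_I` is computed with a log resolution which is a composition of blow-ups of points, see
`LocalZeta` and `PlaneZeta` in `Pool.Agent.W574.SM.ZetaDefs`. The theorem: every pole of `Z_I` is
a root of the Bernstein-Sato polynomial `b_I`. For principal ideals this is Loeser's theorem on
plane curves.

The proof (all of it in `Pool.Agent.W574.SM`):

* `plane_rees`: if the leading forms (in the blow-up of a point of a resolution) of the generators
  are not all proportional, then the exceptional curve `E` gives the root `-ν / a`;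
* `tw_root`: if they are all proportional to `P`, and the differential form
  `(v ^ a₁ P) ^ (-ν / a) v ^ (ν₁ - 1) dv` on `E` is not the differential of a function
  `(v ^ a₁ P) ^ (-ν / a) R`, with `R` a rational function, then `-ν / a` is a root;
* `bracket`: otherwise there are at most two special points on `E`, and the contributions of the
  points of `E` to the residue of `Z_I` at `-ν / a` cancel;
* `node_curveV`, `curve_root`: the curves of multiplicity `m` in the zero locus give the root
  `-1 / m`;
* `local_main`: induction over the tree of the blow-ups. -/

namespace Pool.Agent.Results.MP_ee8c61_ag.PlaneIdeals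

open MvPolynomial Pool.Agent.W574.SM

/-- **The strong monodromy conjecture holds for all ideals of `ℂ[x, y]`.** Let `(f_j)` be an ideal
of `ℂ[x, y]`, let `b` be a polynomial which satisfies a functional equation of the `f_j` (in
particular the Bernstein-Sato polynomial of the ideal), and let `Z` be the topological zeta function
of the ideal, computed by blowing up points. Then every pole of `Z` is a root of `b`. -/
theorem result {ι : Type} [Fintype ι] (f : ι → MvPolynomial (Fin 2) ℂ) (b : Polynomial ℂ)
    (hb : IsFunctionalEq f b) (Z : RatFunc ℂ) (hZ : PlaneZeta f Z) (s₀ : ℂ)
    (hs₀ : Z.denom.eval s₀ = 0) : b.eval s₀ = 0 := by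
  classical
  exact plane_main f b hb Z hZ s₀ hs₀

end Pool.Agent.Results.MP_ee8c61_ag.PlaneIdeals
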