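import Pool.Agent.W206.ID.Main

/-!
# The strong monodromy conjecture for ideals reduces to ideals of quadrics and to cubics

If, for all nonzero proper ideals of polynomial rings over `ℂ` which are generated by polynomials
of degree at most two, every pole of the topological zeta function `Z_I(s)` is a root of `b_I(s)`,
then the same holds for all nonzero proper ideals. The same is true with the principal ideals
generated by the polynomials `∑_j t_j q_j(x) ∈ ℂ[x, t]` with `q_j` of degree at most two.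

The topological zeta function is defined through the motivic zeta function
`𝕃^{-n} ∑_l [{φ : ord I(φ) = l}] (𝕃^{-n} T)^l`: if it is a polynomial `Φ` over `𝓜_ℂ` in `T` and the
series `(𝕃 - 1) / (1 - 𝕃 ^ a T ^ b)`, `b > 0`, as it is by the formula of Denef and Loeser for a log
resolution, then `Z_I(s)` is the value of `Φ`, with the Euler characteristic `χ` applied to its
coefficients, at `T = 1` and `1 / (b s - a)`. It does not depend on `Φ`.

The proof attaches to every ideal `I = (f_i)` and all large `m` quadrics `q_j` in `m` more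
variables `y_i` such that the ideal `J = (q_j)` is taken to `(I, y_1, …, y_m)` by an automorphism of
the polynomial ring. Then `(s + m)(1 - Z_J(s)) = s (1 - Z_I(s + m))`, and for `g = ∑ t_j q_j(x)`
`(s + m)(s + 1)(1 - Z_g(s)) = s (s + m + 1 - Z_I(s + m))`; both `b_J(s)` and `b_g(s)` divide
`(s + 1) b_I(s + m)`.
-/

set_option autoImplicit false

namespace Pool.Agent.Results.MP_ee8c61_ag.QuadricReduction

open Pool.Agent.W428.MOT Pool.Agent.W375.MG Pool.Agent.W206.MO Pool.Agent.W206.ID
open Pool.Agent.W574.SM (IsBernsteinSato)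

/-- The strong monodromy conjecture for the topological zeta function `R` of the ideal `I`
generated by the `f_i`: every pole `s₀` of `R` is a root of `b_I`. -/
def TopSMCI (χ : MK ℂ →+* ℤ) {n r : ℕ} (f : Fin r → MvPolynomial (Fin n) ℂ) : Prop :=
  ∀ R : RatFunc ℂ, IsTop χ (zetaOrdI f) R → ∀ s₀ : ℂ, R.denom.eval s₀ = 0 →
    ∀ b : Polynomial ℂ, IsBernsteinSato f b → b.eval s₀ = 0

theorem eval_of_dvd {b b' : Polynomial ℂ} {s₀ : ℂ} {m : ℕ} (hsm : s₀ ≠ (m : ℂ) - 1)
    (h : b'.eval (s₀ - m) = 0)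
    (hdvd : b' ∣ (Polynomial.X + 1) * b.comp (Polynomial.X + Polynomial.C (m : ℂ))) :
    b.eval s₀ = 0 := by
  obtain ⟨c, hc⟩ := hdvd
  have h2 := congrArg (Polynomial.eval (s₀ - m)) hc
  rw [Polynomial.eval_mul, Polynomial.eval_mul, h, zero_mul, Polynomial.eval_comp,
    Polynomial.eval_add, Polynomial.eval_add, Polynomial.eval_X, Polynomial.eval_one,
    Polynomial.eval_C, sub_add_cancel] at h2
  rcases mul_eq_zero.1 h2 with h3 | h3
  · exact absurd (by linear_combination h3) hsm
  · exact h3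

theorem result (χ : MK ℂ →+* ℤ) (hχ : IsEuler χ) : List.TFAE [
    ∀ (n r : ℕ) (f : Fin r → MvPolynomial (Fin n) ℂ), Ideal.span (Set.range f) ≠ ⊥ →
      Ideal.span (Set.range f) ≠ ⊤ → TopSMCI χ f,
    ∀ (n r : ℕ) (q : Fin r → MvPolynomial (Fin n) ℂ), (∀ j, (q j).totalDegree ≤ 2) →
      Ideal.span (Set.range q) ≠ ⊥ → Ideal.span (Set.range q) ≠ ⊤ → TopSMCI χ q,
    ∀ (n k : ℕ) (q : Fin k → MvPolynomial (Fin n) ℂ), (∀ j, (q j).totalDegree ≤ 2) →
      (∀ c : ℂ, cubic q ≠ MvPolynomial.C c) → TopSMCI χ (fun _ : Fin 1 => cubic q)] := by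
  tfae_have 1 → 2 := fun h n r q _ h1 h2 => h n r q h1 h2
  tfae_have 1 → 3 := by
    intro h n k q _ hq
    refine h _ _ _ ?_ ?_
    · intro hbot
      rw [Ideal.span_eq_bot] at hbot
      exact hq 0 (by rw [map_zero]; exact hbot _ ⟨0, rfl⟩)
    · intro htop
      rw [Set.range_const, Ideal.span_singleton_eq_top] at htop
      obtain ⟨c, -, hc⟩ := MvPolynomial.isUnit_iff_eq_C_of_isReduced.1 htop
      exact hq c hc
  tfae_have 2 → 1 := by
    intro h n r f hf hf' R hR s₀ hs b hb
    obtain ⟨n', k, m, q, hq, h1, h2, -, hsm, ⟨R', b', hR', hs', hb', hdvd⟩, -⟩ :=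
      exists_data hχ.line f hf hf' hR hs hb
    exact eval_of_dvd hsm (h n' k q hq h1 h2 R' hR' _ hs' b' hb') hdvd
  tfae_have 3 → 1 := by
    intro h n r f hf hf' R hR s₀ hs b hb
    obtain ⟨n', k, m, q, hq, -, -, h3, hsm, -, ⟨R', b', hR', hs', hb', hdvd⟩⟩ :=
      exists_data hχ.line f hf hf' hR hs hb
    exact eval_of_dvd hsm (h n' k q hq h3 R' hR' _ hs' b' hb') hdvd
  tfae_finish

end Pool.Agent.Results.MP_ee8c61_ag.QuadricReduction
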