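import Pool.Agent.W574.SM.Chain

set_option autoImplicit false

/-! # Every Rees divisor of an ideal gives a root of its Bernstein-Sato polynomial

Let `I = (f_j)` be an ideal of `ℂ[x_i]`, let `Y → ℂ ^ N` be a log resolution (or any proper
birational morphism from a smooth variety on which `I` becomes locally principal), let `E` be a
prime divisor on `Y`, `a = ord_E I` and `ν = 1 + ord_E K`. The divisor `E` is called a *Rees
divisor* of `I` if the morphism `E → ℂ ^ N × ℙ ^ (r - 1)`, `p ↦ (x(p), [f_1 : … : f_r](p))`, is
generically finite, that is, if the exceptional or non exceptional divisor `E` appears already on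
the normalised blow-up of `I`. At a general point of a Rees divisor this morphism is unramified.

The theorem: *if `E` is a Rees divisor of `I` then `-ν / a` is a root of the Bernstein-Sato
polynomial `b_I`*. More generally `-(ν + l) / a` is a root for every `0 ≤ l < a` which is the order
along `E` of a polynomial. There is no condition on the ideal, on the dimension, or on the
position of `-ν / a` with respect to the log canonical threshold.

The divisor is given by a formal chart at one of its points, see `DivisorChart`. -/

namespace Pool.Agent.Results.MP_ee8c61_ag.ReesDivisors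

open MvPowerSeries Pool.Agent.W574.SM

/-- A formal chart at a point `p` of a divisor `E` over the affine space: formal power series
`ξ i` in formal coordinates indexed by `σ`, among them the equation `z` of `E`, such that the
Jacobian determinant of `x = ξ` is `z ^ k` times a unit (so that `k` is the multiplicity of `E` in
the relative canonical divisor, and `ν = k + 1`), such that all the `f j` are divisible by `z ^ a`
and such that `f j0` is `z ^ a` times a unit (so that the ideal becomes `(z ^ a)` at `p`). -/
structure DivisorChart {σ ι : Type} [Fintype σ] [DecidableEq σ] (f : ι → MvPolynomial σ ℂ) where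
  /-- the index of the coordinate which defines `E` -/
  z : σ
  /-- the chart -/
  ξ : σ → MvPowerSeries σ ℂ
  /-- the multiplicity of `E` in the relative canonical divisor -/
  k : ℕ
  /-- the order of the ideal along `E` -/
  a : ℕ
  /-- the index of a generator of minimal order -/
  j0 : ι
  jacobian : ∃ U : MvPowerSeries σ ℂ, constantCoeff U ≠ 0 ∧
    (Matrix.of fun t i => pderiv ℂ t (ξ i)).det = X z ^ k * U
  divides : ∀ j, X z ^ a ∣ MvPolynomial.aeval ξ (f j)
  attained : ∃ U : MvPowerSeries σ ℂ, constantCoeff U ≠ 0 ∧
    MvPolynomial.aeval ξ (f j0) = X z ^ a * U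

/-- `E` is a Rees divisor, and its map to `ℂ ^ N × ℙ ^ (r - 1)` is unramified at `p`: there are
functions `w t` which, together with the equation `w z = z` of `E`, are formal coordinates at `p`,
and each of which is the pull-back of a polynomial `q(x)` or of a quotient
`(∑ c_j f_j) / f_{j0}`. -/
def DivisorChart.IsRees {σ ι : Type} [Fintype σ] [DecidableEq σ] [Fintype ι]
    {f : ι → MvPolynomial σ ℂ} (E : DivisorChart f) : Prop :=
  ∃ w : σ → MvPowerSeries σ ℂ, w E.z = X E.z ∧ (∀ t, constantCoeff (w t) = 0) ∧
    (Matrix.of fun s t => constantCoeff (pderiv ℂ s (w t))).det ≠ 0 ∧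
    ∀ t, t ≠ E.z → (∃ q : MvPolynomial σ ℂ, MvPolynomial.aeval E.ξ q = w t) ∨
      ∃ c : ι → ℂ, ∑ j, c j • MvPolynomial.aeval E.ξ (f j)
        = MvPolynomial.aeval E.ξ (f E.j0) * w t

/-- **Every Rees divisor gives a root.** If `E` is a Rees divisor of the ideal `(f_j)`, with
`a = ord_E I > 0` and `ν = k + 1`, then every polynomial `b` which satisfies a functional equation
of `(f_j)`, in particular the Bernstein-Sato polynomial of the ideal, has the root `-ν / a`
(take `l = 0`, `p = 1`), and the root `-(ν + l) / a` for every `l < a` which is the order along `E`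
of a polynomial `p` (at the given point). -/
theorem result {σ ι : Type} [Fintype σ] [DecidableEq σ] [Fintype ι] (f : ι → MvPolynomial σ ℂ)
    (b : Polynomial ℂ) (hb : IsFunctionalEq f b) (E : DivisorChart f) (hE : E.IsRees)
    (l : ℕ) (hl : l < E.a) (p : MvPolynomial σ ℂ)
    (hp : ∃ U : MvPowerSeries σ ℂ, constantCoeff U ≠ 0 ∧
      MvPolynomial.aeval E.ξ p = X E.z ^ l * U) :
    b.eval (-((E.k : ℂ) + 1 + l) / E.a) = 0 := by
  classical
  let lo : LinearOrder σ := LinearOrder.lift' (Fintype.equivFin σ) (Equiv.injective _)
  obtain ⟨U0, hU0, hJ⟩ := E.jacobian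
  obtain ⟨U1, hU1, hj0⟩ := E.attained
  obtain ⟨U2, hU2, hp⟩ := hp
  obtain ⟨w, hwz, hw0, hwdet, htype⟩ := hE
  have hdet : ∀ {R : Type} [CommRing R] (M : Matrix σ σ R),
      @Matrix.det σ (fun a b => lo.toDecidableEq a b) _ R _ M = M.det := by
    intro R _ M
    congr
  refine rees_coords f b hb E.z E.ξ E.k E.a l hl U0 U1 U2 hU0 hU1 hU2 ?_ E.j0 E.divides hj0 p hp
    w hwz hw0 ?_ htype
  · rw [← hJ]; exact hdet _
  · intro h
    apply hwdet
    rw [← h]; exact (hdet _).symm

end Pool.Agent.Results.MP_ee8c61_ag.ReesDivisors
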